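import Pool.Agent.W223.RA.Stms

/-! OM: few integers have many prime factors. -/

set_option autoImplicit false

namespace Pool.Agent.W576.RA

open Finset Pool.Agent.W223.RA ArithmeticFunction

noncomputable section

/-- `B^ω` summed over the divisors -/
theorem sum_div (B R : ℕ) (hR : R ≠ 0) :
    (B + 1) ^ R.primeFactors.card ≤ ∑ d ∈ R.divisors, B ^ d.primeFactors.card := by
  have h1 : ∑ S ∈ R.primeFactors.powerset, B ^ S.card = (B + 1) ^ R.primeFactors.card := by
    rw [← Finset.sum_pow_mul_eq_add_pow]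
    simp
  have hp : ∀ S ∈ R.primeFactors.powerset, ∀ p ∈ S, p.Prime := by
    intro S hS p hpS
    exact Nat.prime_of_mem_primeFactors (Finset.mem_powerset.1 hS hpS)
  have h2 : ∑ S ∈ R.primeFactors.powerset, B ^ S.card =
      ∑ d ∈ R.primeFactors.powerset.image (fun S => ∏ p ∈ S, p), B ^ d.primeFactors.card := by
    rw [Finset.sum_image]
    · apply Finset.sum_congr rfl
      intro S hS
      rw [Nat.primeFactors_prod (hp S hS)]
    · intro S hS T hT h
      have h3 := congrArg Nat.primeFactors h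
      simp only [] at h3
      rwa [Nat.primeFactors_prod (hp S hS), Nat.primeFactors_prod (hp T hT)] at h3
  rw [← h1, h2]
  apply Finset.sum_le_sum_of_subset
  intro d hd
  rw [Finset.mem_image] at hd
  obtain ⟨S, hS, rfl⟩ := hd
  rw [Nat.mem_divisors]
  exact ⟨(Finset.prod_dvd_prod_of_subset _ _ _ (Finset.mem_powerset.1 hS)).trans
    (Nat.prod_primeFactors_dvd R), hR⟩

theorem low (A : ℕ) : ∀ R : ℕ, R ≠ 0 → (((A + 1) ^ R.primeFactors.card : ℕ) : ℝ) ≤
    (((zeta : ArithmeticFunction ℕ) : ArithmeticFunction ℝ) ^ (A + 1)) R := by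
  induction A with
  | zero =>
    intro R hR
    rw [zero_add, one_pow, pow_one, natCoe_apply, zeta_apply, if_neg hR]
  | succ A ih =>
    intro R hR
    rw [pow_succ', coe_zeta_mul_apply]
    calc (((A + 1 + 1) ^ R.primeFactors.card : ℕ) : ℝ)
        ≤ ((∑ d ∈ R.divisors, (A + 1) ^ d.primeFactors.card : ℕ) : ℝ) := by
          exact_mod_cast sum_div (A + 1) R hR
      _ = ∑ d ∈ R.divisors, (((A + 1) ^ d.primeFactors.card : ℕ) : ℝ) := by push_cast; rfl
      _ ≤ _ := Finset.sum_le_sum (fun d hd => ih d (Nat.pos_of_mem_divisors hd).ne')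

theorem nonneg (A R : ℕ) : 0 ≤ (((zeta : ArithmeticFunction ℕ) : ArithmeticFunction ℝ) ^ (A + 1)) R := by
  by_cases hR : R = 0
  · rw [hR, ArithmeticFunction.map_zero]
  · exact le_trans (Nat.cast_nonneg _) (low A R hR)

theorem up (A : ℕ) : ∀ N : ℕ, ∑ R ∈ Ioc 0 N, (((zeta : ArithmeticFunction ℕ) : ArithmeticFunction ℝ) ^ (A + 1)) R ≤
    (N : ℝ) * (1 + Real.log N) ^ A := by
  induction A with
  | zero =>
    intro N
    rw [zero_add, pow_one, pow_zero, mul_one]
    have h := sum_Ioc_zeta N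
    have h2 : ((∑ n ∈ Ioc 0 N, zeta n : ℕ) : ℝ) = (N : ℝ) := by rw [h]
    rw [Nat.cast_sum] at h2
    exact h2.le
  | succ A ih =>
    intro N
    rw [pow_succ', sum_Ioc_mul_eq_sum_sum]
    have hlog : 0 ≤ Real.log N := Real.log_natCast_nonneg N
    have h1 : ∀ d ∈ Ioc 0 N, (((zeta : ArithmeticFunction ℕ) : ArithmeticFunction ℝ) d) *
        ∑ m ∈ Ioc 0 (N / d), (((zeta : ArithmeticFunction ℕ) : ArithmeticFunction ℝ) ^ (A + 1)) m ≤
        ((d : ℝ)⁻¹) * ((N : ℝ) * (1 + Real.log N) ^ A) := by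
      intro d hd
      rw [Finset.mem_Ioc] at hd
      have hd0 : d ≠ 0 := by omega
      rw [natCoe_apply, zeta_apply, if_neg hd0, Nat.cast_one, one_mul]
      refine (ih (N / d)).trans ?_
      have hq : 1 ≤ N / d := (Nat.one_le_div_iff hd.1).2 hd.2
      have hq2 : N / d ≤ N := Nat.div_le_self _ _
      have h2 : (((N / d : ℕ)) : ℝ) ≤ (d : ℝ)⁻¹ * (N : ℝ) := by
        rw [inv_mul_eq_div]
        exact Nat.cast_div_le
      have h3 : Real.log ((N / d : ℕ) : ℝ) ≤ Real.log N :=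
        Real.log_le_log (by exact_mod_cast hq) (by exact_mod_cast hq2)
      have h4 : 0 ≤ Real.log ((N / d : ℕ) : ℝ) := Real.log_natCast_nonneg _
      rw [← mul_assoc]
      apply mul_le_mul h2 _ (by positivity) (by positivity)
      exact pow_le_pow_left₀ (by linarith) (by linarith) _
    refine (Finset.sum_le_sum h1).trans ?_
    rw [← Finset.sum_mul]
    have h5 := harmonic_le_one_add_log N
    rw [harmonic_eq_sum_Icc] at h5
    push_cast at h5
    have h6 : ∑ d ∈ Ioc 0 N, ((d : ℝ)⁻¹) ≤ 1 + Real.log N := by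
      refine le_trans (le_of_eq ?_) h5
      apply Finset.sum_congr _ (fun _ _ => rfl)
      ext d
      simp only [Finset.mem_Ioc, Finset.mem_Icc]
      omega
    calc (∑ d ∈ Ioc 0 N, ((d : ℝ)⁻¹)) * ((N : ℝ) * (1 + Real.log N) ^ A)
        ≤ (1 + Real.log N) * ((N : ℝ) * (1 + Real.log N) ^ A) :=
          mul_le_mul_of_nonneg_right h6 (by positivity)
      _ = (N : ℝ) * (1 + Real.log N) ^ (A + 1) := by rw [pow_succ]; ring

theorem small : ∃ L₀ : ℝ, ∀ L : ℝ, L₀ ≤ L →
    L ^ ((97 : ℝ) / 100) * Real.log (1 + L) ≤ 1 / 500 * L := by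
  have h := (isLittleO_log_rpow_atTop (show (0 : ℝ) < 3 / 100 by norm_num)).bound
    (show (0 : ℝ) < 1 / 1000 by norm_num)
  obtain ⟨L₁, hL₁⟩ := Filter.eventually_atTop.1 h
  refine ⟨max L₁ 1, ?_⟩
  intro L hL
  have hL1 : L₁ ≤ L := le_trans (le_max_left _ _) hL
  have hL2 : 1 ≤ L := le_trans (le_max_right _ _) hL
  have h1 := hL₁ (1 + L) (by linarith)
  rw [Real.norm_eq_abs, Real.norm_eq_abs, abs_of_nonneg (Real.log_nonneg (by linarith)),
    abs_of_nonneg (by positivity)] at h1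
  have h2 : (1 + L) ^ ((3 : ℝ) / 100) ≤ 2 * L ^ ((3 : ℝ) / 100) := by
    calc (1 + L) ^ ((3 : ℝ) / 100) ≤ (2 * L) ^ ((3 : ℝ) / 100) :=
          Real.rpow_le_rpow (by linarith) (by linarith) (by norm_num)
      _ = 2 ^ ((3 : ℝ) / 100) * L ^ ((3 : ℝ) / 100) := Real.mul_rpow (by norm_num) (by linarith)
      _ ≤ 2 * L ^ ((3 : ℝ) / 100) := by
          apply mul_le_mul_of_nonneg_right _ (by positivity)
          calc (2 : ℝ) ^ ((3 : ℝ) / 100) ≤ 2 ^ (1 : ℝ) :=
                Real.rpow_le_rpow_of_exponent_le (by norm_num) (by norm_num)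
            _ = 2 := Real.rpow_one 2
  have h3 : L ^ ((97 : ℝ) / 100) * L ^ ((3 : ℝ) / 100) = L := by
    rw [← Real.rpow_add (by linarith)]
    norm_num
  calc L ^ ((97 : ℝ) / 100) * Real.log (1 + L)
      ≤ L ^ ((97 : ℝ) / 100) * (1 / 1000 * (2 * L ^ ((3 : ℝ) / 100))) := by
        apply mul_le_mul_of_nonneg_left _ (by positivity)
        refine h1.trans ?_
        exact mul_le_mul_of_nonneg_left h2 (by norm_num)
    _ = 1 / 500 * (L ^ ((97 : ℝ) / 100) * L ^ ((3 : ℝ) / 100)) := by ring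
    _ = 1 / 500 * L := by rw [h3]

theorem tOM : StmtOM := by
  classical
  obtain ⟨L₀, hL₀⟩ := small
  refine ⟨max 3 (Real.exp (max L₀ 3)), le_max_left _ _, ?_⟩
  intro X hX
  have hX3 : 3 ≤ X := le_trans (le_max_left _ _) hX
  have hX0 : 0 < X := by linarith
  obtain ⟨L, hL⟩ : ∃ L, L = Real.log X := ⟨_, rfl⟩
  have hLX : max L₀ 3 ≤ L := by
    rw [hL, Real.le_log_iff_exp_le hX0]
    exact le_trans (le_max_right _ _) hX
  have hL3 : 3 ≤ L := le_trans (le_max_right _ _) hLX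
  have hLL := hL₀ L (le_trans (le_max_left _ _) hLX)
  have hexp : ∀ a : ℝ, X ^ a = Real.exp (a * L) := by
    intro a
    rw [Real.rpow_def_of_pos hX0, hL, mul_comm]
  have hll : 0 < Real.log L := Real.log_pos (by linarith)
  obtain ⟨A, hA⟩ : ∃ A, A = ⌊L ^ ((97 : ℝ) / 100)⌋₊ := ⟨_, rfl⟩
  have hA1 : (A : ℝ) ≤ L ^ ((97 : ℝ) / 100) := by
    rw [hA]
    exact Nat.floor_le (by positivity)
  have hA2 : L ^ ((97 : ℝ) / 100) < (A : ℝ) + 1 := by
    rw [hA]
    exact Nat.lt_floor_add_one _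
  set N := ⌊X⌋₊ with hN
  have hset : {R : ℕ | 1 ≤ R ∧ (R : ℝ) ≤ X ∧
      Real.log X / (10 * Real.log (Real.log X)) ≤ (R.primeFactors.card : ℝ)} =
      (((Ioc 0 N).filter (fun R => L / (10 * Real.log L) ≤ (R.primeFactors.card : ℝ)) :
        Finset ℕ) : Set ℕ) := by
    ext R
    rw [Set.mem_setOf_eq, Finset.mem_coe, Finset.mem_filter, Finset.mem_Ioc, hN,
      Nat.le_floor_iff hX0.le, hL]
    constructor
    · rintro ⟨a, b, c⟩
      exact ⟨⟨a, b⟩, c⟩
    · rintro ⟨⟨a, b⟩, c⟩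
      exact ⟨a, b, c⟩
  rw [hset, Set.ncard_coe_finset]
  set T := (Ioc 0 N).filter (fun R => L / (10 * Real.log L) ≤ (R.primeFactors.card : ℝ)) with hT
  have hz : ∀ R ∈ T, X ^ ((97 : ℝ) / 1000) ≤ (((zeta : ArithmeticFunction ℕ) : ArithmeticFunction ℝ) ^ (A + 1)) R := by
    intro R hR
    rw [hT, Finset.mem_filter, Finset.mem_Ioc] at hR
    refine le_trans ?_ (low A R (by omega))
    push_cast
    have h1 : (L ^ ((97 : ℝ) / 100)) ^ R.primeFactors.card ≤
        ((A : ℝ) + 1) ^ R.primeFactors.card := pow_le_pow_left₀ (by positivity) hA2.le _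
    refine le_trans ?_ h1
    rw [hexp, ← Real.rpow_natCast, ← Real.rpow_mul (by linarith),
      Real.rpow_def_of_pos (by linarith), Real.exp_le_exp]
    have h2 := hR.2
    rw [div_le_iff₀ (by positivity)] at h2
    nlinarith [h2]
  have h1 : (T.card : ℝ) * X ^ ((97 : ℝ) / 1000) ≤ (N : ℝ) * (1 + Real.log N) ^ A := by
    refine le_trans ?_ (up A N)
    calc (T.card : ℝ) * X ^ ((97 : ℝ) / 1000) = ∑ _R ∈ T, X ^ ((97 : ℝ) / 1000) := by
          rw [Finset.sum_const, nsmul_eq_mul]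
      _ ≤ ∑ R ∈ T, (((zeta : ArithmeticFunction ℕ) : ArithmeticFunction ℝ) ^ (A + 1)) R := Finset.sum_le_sum hz
      _ ≤ _ := Finset.sum_le_sum_of_subset_of_nonneg (Finset.filter_subset _ _)
          (fun R _ _ => nonneg A R)
  have hNX : (N : ℝ) ≤ X := Nat.floor_le hX0.le
  have hN1 : 1 ≤ N := by
    rw [hN, Nat.le_floor_iff hX0.le]
    push_cast
    linarith
  have h2 : (1 + Real.log N) ^ A ≤ X ^ ((1 : ℝ) / 500) := by
    have e1 : Real.log N ≤ L := by
      rw [hL]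
      exact Real.log_le_log (by exact_mod_cast hN1) hNX
    have e2 : 0 ≤ Real.log N := Real.log_natCast_nonneg N
    calc (1 + Real.log N) ^ A ≤ (1 + L) ^ A := pow_le_pow_left₀ (by linarith) (by linarith) _
      _ = Real.exp (Real.log (1 + L) * A) := by
          rw [← Real.rpow_natCast, Real.rpow_def_of_pos (by linarith)]
      _ ≤ Real.exp (1 / 500 * L) := by
          rw [Real.exp_le_exp]
          refine le_trans ?_ hLL
          rw [mul_comm]
          exact mul_le_mul_of_nonneg_right hA1 (Real.log_nonneg (by linarith))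
      _ = X ^ ((1 : ℝ) / 500) := (hexp _).symm
  have h3 : (T.card : ℝ) * X ^ ((97 : ℝ) / 1000) ≤ X ^ ((1 : ℝ) + 1 / 500) := by
    refine h1.trans ?_
    rw [Real.rpow_add hX0, Real.rpow_one]
    exact mul_le_mul hNX h2 (by
      have e2 : 0 ≤ Real.log N := Real.log_natCast_nonneg N
      positivity) hX0.le
  have h4 : X ^ ((1 : ℝ) + 1 / 500) = X ^ ((181 : ℝ) / 200) * X ^ ((97 : ℝ) / 1000) := by
    rw [← Real.rpow_add hX0]
    norm_num
  rw [h4] at h3
  exact le_of_mul_le_mul_right h3 (by positivity)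

end

end Pool.Agent.W576.RA
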